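import Pool.Agent.H85.PS.Targets

/-! Board psv_modules, module SPD: supports and degrees of the iterates. -/

set_option autoImplicit false

open Polynomial Finset Pool.Agent.H85.PS

namespace Pool.Agent.H65.PS

theorem natDegree_th {s : ℕ} (b : Fin s → ℚ) : (th b).natDegree ≤ s := by
  unfold th
  refine (natDegree_prod_le _ _).trans ?_
  refine (Finset.sum_le_sum (g := fun _ => 1) fun k _ => ?_).trans (by simp)
  refine (natDegree_add_le _ _).trans ?_
  simp only [natDegree_one, max_le_iff]
  exact ⟨Nat.zero_le _, (natDegree_C_mul_le _ _).trans natDegree_X_le⟩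

theorem natDegree_thk {s : ℕ} (b : Fin s → ℚ) (k : Fin s) : (thk b k).natDegree ≤ s := by
  unfold thk
  refine (natDegree_C_mul_le _ _).trans ((natDegree_prod_le _ _).trans ?_)
  refine (Finset.sum_le_sum (g := fun _ => 1) fun k _ => ?_).trans ?_
  · refine (natDegree_add_le _ _).trans ?_
    simp only [natDegree_one, max_le_iff]
    exact ⟨Nat.zero_le _, (natDegree_C_mul_le _ _).trans natDegree_X_le⟩
  · simp

theorem one_step {s D m : ℕ} (b : Fin s → ℚ) {A : Vec s} (h1 : Sup D A) (h2 : Deg m A) :
    Sup D (nab b A) ∧ Deg (m + s) (nab b A) := by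
  constructor
  · intro e he
    unfold nab
    rw [h1 e he, derivative_zero, mul_zero, zero_add]
    refine Finset.sum_eq_zero fun k _ => ?_
    have : D < ∑ j, (e + Pi.single k 1 : Fin s → ℕ) j := by
      simp only [Pi.add_apply, Finset.sum_add_distrib]
      omega
    rw [h1 _ this, mul_zero]
  · intro e
    unfold nab
    refine natDegree_add_le_of_degree_le ?_ ?_
    · refine natDegree_mul_le.trans ?_
      have h3 := natDegree_th b
      have h4 : (derivative (A e)).natDegree ≤ m :=
        (natDegree_derivative_le _).trans ((Nat.sub_le _ _).trans (h2 e))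
      omega
    · refine natDegree_sum_le_of_forall_le _ _ fun k _ => ?_
      refine natDegree_mul_le.trans ?_
      have h3 := natDegree_thk b k
      have h4 := h2 (e + Pi.single k 1)
      have h5 : (thk b k * ((e k + 1 : ℕ) : ℚ[X])).natDegree ≤ s := by
        refine natDegree_mul_le.trans ?_
        rw [natDegree_natCast]
        omega
      omega

theorem pf_SPD : T_SPD := by
  intro s D m b A h1 h2 i
  induction i with
  | zero => simpa [nabI] using ⟨h1, h2⟩
  | succ i ih =>
    have h := one_step b ih.1 ih.2
    unfold nabI at h ⊢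
    rw [Function.iterate_succ_apply']
    refine ⟨h.1, ?_⟩
    have e : m + (i + 1) * s = m + i * s + s := by ring
    rw [e]
    exact h.2

end Pool.Agent.H65.PS
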